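import Pool.Agent.H17.XW.TJ

/-!
# Exponential time in EQP, version 2: row FI9 (all requirements at once, by compactness)
-/

set_option autoImplicit false

namespace Pool.Agent.H19.XW

open Finset Pool.Agent.H6.NB Pool.Agent.H70.OQ Pool.Agent.H70.EH Pool.Agent.H70.EI
open Pool.Agent.H78.XQ Pool.Agent.H66.IQ Pool.Agent.H66.AV Pool.Agent.H66.XP Pool.Agent.H17.XW
open Pool.Agent.H66.IP (ins sp dm scl)

/-- the kinds of the requirements -/
private abbrev Fi9 : Type := (ℕ × List Bool) ⊕ ((ℕ × ℕ) ⊕ (ℕ × List Bool))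

/-- the requirement with the number `i` -/
private def fi9D (i : ℕ) : Option Fi9 := Encodable.decode i

private theorem fi9D_encode (z : Fi9) : fi9D (Encodable.encode z) = some z := Encodable.encodek z

/-- the condition which belongs to a requirement -/
private def fi9R (V : ℕ → Exq)
    (G : ℕ → (k : ℕ) × (List Bool → (List Bool → Bool) → List Bool → Prot k)) (N : ℕ → ℕ)
    (O : List Bool → Bool) : Fi9 → Prop
  | Sum.inl p => GoodX V p O
  | Sum.inr (Sum.inl jn) => N jn.1 ≤ jn.2 → ∀ a : List Bool, 200 * a.length ≤ jn.2 →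
    (rights ((G jn.1).2 a (hide jn.2 (G jn.1).1 O)) O jn.2 : ℝ) ≤
      (1 / 2 + (1 / 2) ^ (jn.2 / 64)) * 2 ^ jn.2
  | Sum.inr (Sum.inr kx) => Una O (kx.1 + 1) kx.2.length (false :: hdr kx.1 kx.2)

/-- the conditions -/
private def fi9C (V : ℕ → Exq)
    (G : ℕ → (k : ℕ) × (List Bool → (List Bool → Bool) → List Bool → Prot k)) (N : ℕ → ℕ)
    (i : ℕ) (O : List Bool → Bool) : Prop := ∀ r, fi9D i = some r → fi9R V G N O r

/-- the condition depends on finitely many strings -/
private theorem fi9_loc (hGDX : T_GDX) (hRL2 : Pool.Agent.H17.XW.T_RL2) (hUNL : T_UNL)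
    (V : ℕ → Exq) (G : ℕ → (k : ℕ) × (List Bool → (List Bool → Bool) → List Bool → Prot k))
    (N : ℕ → ℕ) (r : Fi9) : ∃ L, ∀ O O' : List Bool → Bool, (∀ w, w.length ≤ L → O w = O' w) →
      fi9R V G N O r → fi9R V G N O' r := by
  rcases r with p | ⟨j, n⟩ | ⟨k, x⟩
  · exact hGDX V p
  · obtain ⟨L, hL⟩ : ∃ L, ∀ a : List Bool, 200 * a.length ≤ n → ∀ O O' : List Bool → Bool,
        (∀ w, w.length ≤ L → O w = O' w) → rights ((G j).2 a (hide n (G j).1 O)) O n =
          rights ((G j).2 a (hide n (G j).1 O')) O' n := by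
      choose f hf using fun a => hRL2 (G j).1 n ((G j).2 a)
      have hF : {a : List Bool | a.length ≤ n}.Finite := List.finite_length_le Bool n
      obtain ⟨L, hL⟩ : ∃ L, ∀ a ∈ hF.toFinset, f a ≤ L :=
        ⟨hF.toFinset.sup f, fun a ha => Finset.le_sup ha⟩
      refine ⟨L, fun a ha O O' hO => hf a O O' fun w hw => hO w (hw.trans (hL a ?_))⟩
      rw [Set.Finite.mem_toFinset]
      show a.length ≤ n
      omega
    refine ⟨L, fun O O' hO hC => ?_⟩
    intro hn a ha
    have h1 := hC hn a ha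
    have h2 := hL a ha O O' hO
    show (rights ((G j).2 a (hide n (G j).1 O')) O' n : ℝ) ≤ (1 / 2 + (1 / 2) ^ (n / 64)) * 2 ^ n
    rw [← h2]
    exact h1
  · obtain ⟨L, hL⟩ := hUNL (k + 1) x.length (false :: hdr k x)
    exact ⟨L, fun O O' hO hC => hL O O' hO hC⟩

/-- a bound for the parameters of the requirements -/
private theorem fi9_bd (V : ℕ → Exq) (M : ℕ) : ∃ M' : ℕ, ∀ i < M,
    (∀ p, fi9D i = some (Sum.inl p) → (sp (lo V) p).length ≤ M') ∧
    (∀ j n, fi9D i = some (Sum.inr (Sum.inl (j, n))) → j < M' ∧ n < M') ∧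
    ∀ k x, fi9D i = some (Sum.inr (Sum.inr (k, x))) → k < M' ∧ x.length < M' := by
  induction M with
  | zero => exact ⟨0, fun i hi => absurd hi (Nat.not_lt_zero i)⟩
  | succ m ih =>
    obtain ⟨M₁, h₁⟩ := ih
    obtain ⟨M₂, h₂⟩ : ∃ M₂ : ℕ, (∀ p, fi9D m = some (Sum.inl p) → (sp (lo V) p).length ≤ M₂) ∧
        (∀ j n, fi9D m = some (Sum.inr (Sum.inl (j, n))) → j < M₂ ∧ n < M₂) ∧
        ∀ k x, fi9D m = some (Sum.inr (Sum.inr (k, x))) → k < M₂ ∧ x.length < M₂ := by
      rcases h : fi9D m with _ | (p | ⟨j, n⟩ | ⟨k, x⟩)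
      · exact ⟨0, fun p hp => absurd hp (by simp), fun j n hj => absurd hj (by simp),
          fun k x hk => absurd hk (by simp)⟩
      · refine ⟨(sp (lo V) p).length, fun p' hp => ?_, fun j n hj => absurd hj (by simp),
          fun k x hk => absurd hk (by simp)⟩
        have h1 : p = p' := by simpa using hp
        rw [h1]
      · refine ⟨max j n + 1, fun p hp => absurd hp (by simp), fun j' n' hj => ?_,
          fun k x hk => absurd hk (by simp)⟩
        have h1 : j = j' ∧ n = n' := by simpa using hj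
        obtain ⟨rfl, rfl⟩ := h1
        constructor <;> omega
      · refine ⟨max k x.length + 1, fun p hp => absurd hp (by simp),
          fun j n hj => absurd hj (by simp), fun k' x' hk => ?_⟩
        have h1 : k = k' ∧ x = x' := by simpa using hk
        obtain ⟨rfl, rfl⟩ := h1
        constructor <;> omega
    refine ⟨max M₁ M₂, fun i hi => ?_⟩
    rcases Nat.lt_succ_iff_lt_or_eq.1 hi with hlt | rfl
    · refine ⟨fun p hp => ((h₁ i hlt).1 p hp).trans (le_max_left _ _), fun j n hj => ?_,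
        fun k x hk => ?_⟩
      · have := (h₁ i hlt).2.1 j n hj
        omega
      · have := (h₁ i hlt).2.2 k x hk
        omega
    · refine ⟨fun p hp => (h₂.1 p hp).trans (le_max_right _ _), fun j n hj => ?_,
        fun k x hk => ?_⟩
      · have := h₂.2.1 j n hj
        omega
      · have := h₂.2.2 k x hk
        omega

theorem pf_FI9 (hFM2 : T_FM2) (hRL2 : Pool.Agent.H17.XW.T_RL2) (hUNL : T_UNL) (hCPT : T_CPT)
    (hGDX : T_GDX) (hEXY : T_EXY) : T_FI9 := by
  intro V G hG
  obtain ⟨N, hN⟩ := hFM2 V G hG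
  have hloc : ∀ i, ∃ L, ∀ O O' : List Bool → Bool, (∀ w, w.length ≤ L → O w = O' w) →
      fi9C V G N i O → fi9C V G N i O' := by
    intro i
    rcases h : fi9D i with _ | r
    · refine ⟨0, fun O O' _ _ r hr => ?_⟩
      rw [h] at hr
      exact absurd hr (by simp)
    · obtain ⟨L, hL⟩ := fi9_loc hGDX hRL2 hUNL V G N r
      refine ⟨L, fun O O' hO hC r' hr => ?_⟩
      have hr' := hr
      rw [h] at hr'
      have h1 : r = r' := by simpa using hr'
      rw [← h1]
      exact hL O O' hO (hC r h)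
  have hfin : ∀ M, ∃ O, ∀ i < M, fi9C V G N i O := by
    intro M
    obtain ⟨M', hM'⟩ := fi9_bd V M
    obtain ⟨O, hO1, hO2, hO3⟩ := hN M'
    refine ⟨O, fun i hi r hr => ?_⟩
    rcases r with p | ⟨j, n⟩ | ⟨k, x⟩
    · exact hO1 p ((hM' i hi).1 p hr)
    · intro hn a ha
      obtain ⟨h3, h4⟩ := (hM' i hi).2.1 j n hr
      exact hO3 j h3 n h4 hn a ha
    · obtain ⟨h3, h4⟩ := (hM' i hi).2.2 k x hr
      have h5 := hO2 k x.length h3 h4 (fun i => x.get i)
      rw [List.ofFn_get] at h5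
      exact h5
  obtain ⟨O, hO⟩ := hCPT (fi9C V G N) hloc hfin
  refine ⟨O, ?_, ?_, ?_⟩
  · intro i x
    exact hEXY V i x O (hO (Encodable.encode (Sum.inl (i, x) : Fi9)) _ (fi9D_encode _))
  · intro k x
    exact hO (Encodable.encode (Sum.inr (Sum.inr (k, x)) : Fi9)) _ (fi9D_encode _)
  · intro j
    refine ⟨N j, fun n hn => ?_⟩
    exact hO (Encodable.encode (Sum.inr (Sum.inl (j, n)) : Fi9)) _ (fi9D_encode _) hn

end Pool.Agent.H19.XW
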