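import Pool.Agent.H17.XW.TJ

/-!
# Exponential time in EQP, version 2: row RL2 (the right inputs depend on finitely many strings)
-/

set_option autoImplicit false

namespace Pool.Agent.H19.XW

open Finset Pool.Agent.H6.NB Pool.Agent.H70.OQ Pool.Agent.H70.EH Pool.Agent.H70.EI
open Pool.Agent.H78.XQ Pool.Agent.H66.IQ Pool.Agent.H66.AV Pool.Agent.H66.XP Pool.Agent.H17.XW
open Pool.Agent.H66.IP (ins sp dm scl)

/-- what the protocols see depends on the strings of length at most `n ^ 3` -/
theorem hide_congr (n k : ℕ) {O O' : List Bool → Bool}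
    (h : ∀ w : List Bool, w.length ≤ n ^ 3 → O w = O' w) : hide n k O = hide n k O' := by
  funext w
  unfold hide
  by_cases hw : 2 * w.length ≤ n ^ 3 ∧ ¬ Tab n k w
  · rw [if_pos hw, if_pos hw]
    exact h w (by omega)
  · rw [if_neg hw, if_neg hw]

/-- there are finitely many possible views -/
theorem hide_fin (n k : ℕ) : (Set.range (hide n k)).Finite := by
  have h1 : {s : Set (List Bool) | s ⊆ {w : List Bool | w.length ≤ n ^ 3}}.Finite :=
    (List.finite_length_le Bool (n ^ 3)).finite_subsets
  refine Set.Finite.of_injOn (f := fun f : List Bool → Bool => {w : List Bool | f w = true})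
    ?_ ?_ h1
  · rintro _ ⟨O, rfl⟩ w hw
    have hw' : hide n k O w = true := hw
    unfold hide at hw'
    by_contra h2
    have h3 : ¬ (2 * w.length ≤ n ^ 3 ∧ ¬ Tab n k w) := by
      rintro ⟨h4, -⟩
      have h5 : ¬ w.length ≤ n ^ 3 := h2
      omega
    rw [if_neg h3] at hw'
    exact Bool.false_ne_true hw'
  · intro f _ f' _ hff
    funext w
    have h2 : f w = true ↔ f' w = true := by
      constructor
      · intro h3
        have h4 : w ∈ {w : List Bool | f w = true} := h3
        rw [show {w : List Bool | f w = true} = {w : List Bool | f' w = true} from hff] at h4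
        exact h4
      · intro h3
        have h4 : w ∈ {w : List Bool | f' w = true} := h3
        rw [← show {w : List Bool | f w = true} = {w : List Bool | f' w = true} from hff] at h4
        exact h4
    exact Bool.eq_iff_iff.2 h2

theorem pf_RL2 (hRLO : Pool.Agent.H66.AV.T_RLO) : Pool.Agent.H17.XW.T_RL2 := by
  intro k n G
  choose f hf using fun g => hRLO k (G g) n
  obtain ⟨L, hL⟩ : ∃ L, ∀ g ∈ (hide_fin n k).toFinset, f g ≤ L :=
    ⟨(hide_fin n k).toFinset.sup f, fun g hg => Finset.le_sup hg⟩
  refine ⟨L + n ^ 3, fun O O' hO => ?_⟩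
  have h1 : hide n k O = hide n k O' := hide_congr n k fun w hw => hO w (by omega)
  rw [← h1]
  refine hf _ O O' fun w hw => hO w ?_
  have h2 : f (hide n k O) ≤ L := hL _ (by
    rw [Set.Finite.mem_toFinset]
    exact ⟨O, rfl⟩)
  omega

end Pool.Agent.H19.XW
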