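import Pool.Agent.H13.XW.FM2
import Pool.Agent.H13.XW.SU2
import Pool.Agent.H17.XW.HDE
import Pool.Agent.H17.XW.RE2
import Pool.Agent.H17.XW.UNA
import Pool.Agent.H19.XW.FI9
import Pool.Agent.H19.XW.RL2
import Pool.Agent.H66.XP.All

/-!
# Assembly: exponential time in EQP, and protocols which are not better than guessing, version 2
-/

set_option autoImplicit false

namespace Pool.Agent.H19.XW

open Pool.Agent.H17.XW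

theorem qf_TBS : T_TBS := Pool.Agent.H17.XW.pf_TBS

theorem qf_HDE : T_HDE := Pool.Agent.H17.XW.pf_HDE Pool.Agent.H66.IP.pf_SPF
  Pool.Agent.H66.IP.pf_IZU qf_TBS

theorem qf_RE2 : T_RE2 := Pool.Agent.H17.XW.pf_RE2 Pool.Agent.H66.XP.qf_PFX
  Pool.Agent.H66.XP.qf_WMX Pool.Agent.H66.XP.qf_GLX Pool.Agent.H66.XP.qf_HYB
  Pool.Agent.H66.AV.pf_ID1 Pool.Agent.H66.AV.pf_ID2 Pool.Agent.H66.AV.pf_OVL qf_HDE

theorem qf_SU2 : T_SU2 := Pool.Agent.H13.XW.pf_SU2 qf_RE2 qf_HDE Pool.Agent.H66.XP.qf_NU2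
  Pool.Agent.H66.XP.qf_GZX Pool.Agent.H66.AV.pf_NUM Pool.Agent.H66.AV.pf_POW
  Pool.Agent.H66.AV.pf_AMP Pool.Agent.H66.AV.pf_RCT Pool.Agent.H66.AV.pf_OVL

theorem qf_UNA : T_UNA := Pool.Agent.H17.XW.pf_UNA

theorem qf_UNL : T_UNL := Pool.Agent.H17.XW.pf_UNL

theorem qf_FM2 : T_FM2 := Pool.Agent.H13.XW.pf_FM2 qf_SU2 qf_UNA Pool.Agent.H66.XP.qf_WMX
  Pool.Agent.H66.XP.qf_HIT Pool.Agent.H66.XP.qf_VWX Pool.Agent.H66.XP.qf_GZX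
  Pool.Agent.H66.IP.pf_SPF Pool.Agent.H66.IP.pf_ISZ Pool.Agent.H66.AV.pf_ALG
  Pool.Agent.H66.AV.pf_OVL

theorem qf_RL2 : T_RL2 := pf_RL2 Pool.Agent.H66.AV.pf_RLO

theorem qf_FI9 : T_FI9 := pf_FI9 qf_FM2 qf_RL2 qf_UNL Pool.Agent.H66.AV.pf_CPT
  Pool.Agent.H66.XP.qf_GDX Pool.Agent.H66.XP.qf_EXY

end Pool.Agent.H19.XW
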